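import Pool.Agent.Helper10.CR.Goals2

/-!
# Project CR (MP_ca5fc5_al), packet CR-STRW: strings in case W
-/

set_option autoImplicit false

universe u

namespace Pool.Agent.Helper8.CR

open Pool.Agent.Helper10.CR

section

variable {k : Type u} [Field k]

/-- The relation `a y = b s`. -/
def rsW (k : Type u) [Field k] : RF2 k 3 where
  n := 0
  s := 0
  q := 1
  a := Fin.elim0
  b := fun i => Fin.elim0 i
  c := fun _ => ![![1, 0], ![0, -1], ![0, 0]]
  d := fun _ _ => Fin.elim0

/-- The relation of the other letter. -/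
def rxW (k : Type u) [Field k] : RF2 k 3 where
  n := 3
  s := 1
  q := 3
  a := fun _ => ![0, 1]
  b := fun _ => ![-1, -1, 0]
  c := ![![![0, 0], ![0, 0], ![1, 0]], ![![1, 0], ![0, 0], ![0, 0]],
    ![![0, 0], ![0, 0], ![0, 0]]]
  d := ![![![0, 0, 0], ![-1, 0, 0], ![0, 0, 0]], ![![0, 0, 0], ![0, 0, 0], ![0, 0, 0]],
    ![![0, 0, 1], ![0, -1, 0], ![0, 0, 0]]]

theorem sat_rsW (X : RS k 3) (y s : X.V) : (rsW k).Sat X y s ↔ ![y, -s, 0] ∈ X.Rel := by
  have e : ∀ z : Fin 0 → X.V, (fun i : Fin 3 => (![![1, 0], ![0, -1], ![0, 0]] : Fin 3 → Fin 2 → k)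
      i 0 • y + (![![1, 0], ![0, -1], ![0, 0]] : Fin 3 → Fin 2 → k) i 1 • s +
      ∑ j : Fin 0, (Fin.elim0 j : k) • z j) = ![y, -s, 0] := by
    intro z
    funext i
    fin_cases i <;> simp
  constructor
  · rintro ⟨z, -, h⟩
    have h0 := h (0 : Fin 1)
    exact (e z) ▸ h0
  · intro h
    refine ⟨fun j => Fin.elim0 j, fun i => Fin.elim0 i, fun l => ?_⟩
    have h1 := e (fun j => Fin.elim0 j)
    exact h1 ▸ h

theorem sat_rxW (X : RS k 3) (y s : X.V) : (rxW k).Sat X y s ↔ ∃ s₁ s₂ y₂ : X.V, s = s₁ + s₂ ∧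
    ![0, -s₁, y] ∈ X.Rel ∧ ![y, 0, 0] ∈ X.Rel ∧ ![y₂, -s₂, 0] ∈ X.Rel := by
  have e0 : ∀ z : Fin 3 → X.V, (fun i : Fin 3 => (rxW k).c (0 : Fin 3) i 0 • y +
      (rxW k).c (0 : Fin 3) i 1 • s + ∑ j : Fin 3, (rxW k).d (0 : Fin 3) i j • z j) =
      ![0, -z 0, y] := by
    intro z
    funext i
    fin_cases i <;> simp [rxW, Fin.sum_univ_three]
  have e1 : ∀ z : Fin 3 → X.V, (fun i : Fin 3 => (rxW k).c (1 : Fin 3) i 0 • y +
      (rxW k).c (1 : Fin 3) i 1 • s + ∑ j : Fin 3, (rxW k).d (1 : Fin 3) i j • z j) =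
      ![y, 0, 0] := by
    intro z
    funext i
    fin_cases i <;> simp [rxW, Fin.sum_univ_three]
  have e2 : ∀ z : Fin 3 → X.V, (fun i : Fin 3 => (rxW k).c (2 : Fin 3) i 0 • y +
      (rxW k).c (2 : Fin 3) i 1 • s + ∑ j : Fin 3, (rxW k).d (2 : Fin 3) i j • z j) =
      ![z 2, -z 1, 0] := by
    intro z
    funext i
    fin_cases i <;> simp [rxW, Fin.sum_univ_three]
  have e3 : ∀ z : Fin 3 → X.V, (rxW k).a (0 : Fin 1) 0 • y + (rxW k).a (0 : Fin 1) 1 • s +
      ∑ j : Fin 3, (rxW k).b (0 : Fin 1) j • z j = s - z 0 - z 1 := by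
    intro z
    simp [rxW, Fin.sum_univ_three]
    abel
  constructor
  · rintro ⟨z', h1, h2⟩
    obtain ⟨z, hz⟩ : ∃ z : Fin 3 → X.V, z = z' := ⟨z', rfl⟩
    subst hz
    have g : s - z 0 - z 1 = 0 := (e3 z).symm.trans (h1 (0 : Fin 1))
    have g0 := (e0 z) ▸ h2 (0 : Fin 3)
    have g1 := (e1 z) ▸ h2 (1 : Fin 3)
    have g2 := (e2 z) ▸ h2 (2 : Fin 3)
    refine ⟨z 0, z 1, z 2, ?_, g0, g1, g2⟩
    rw [sub_sub, sub_eq_zero] at g
    exact g
  · rintro ⟨s₁, s₂, y₂, hs, h0, h1, h2⟩
    refine ⟨![s₁, s₂, y₂], ?_, ?_⟩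
    · have hi : ∀ i : Fin 1, (rxW k).a i 0 • y + (rxW k).a i 1 • s +
          ∑ j : Fin 3, (rxW k).b i j • (![s₁, s₂, y₂] : Fin 3 → X.V) j = 0 := by
        intro i
        rw [Subsingleton.elim i (0 : Fin 1)]
        have h3 := e3 ![s₁, s₂, y₂]
        refine h3.trans ?_
        rw [hs]
        simp
      exact hi
    · intro l
      have hl : ∀ l : Fin 3, (fun i : Fin 3 => (rxW k).c l i 0 • y +
          (rxW k).c l i 1 • s + ∑ j : Fin 3, (rxW k).d l i j • (![s₁, s₂, y₂] : Fin 3 → X.V) j) ∈
          X.Rel := by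
        intro l
        fin_cases l
        · have h3 := e0 ![s₁, s₂, y₂]
          refine h3.symm ▸ ?_
          simpa using h0
        · have h3 := e1 ![s₁, s₂, y₂]
          refine h3.symm ▸ ?_
          simpa using h1
        · have h3 := e2 ![s₁, s₂, y₂]
          refine h3.symm ▸ ?_
          simpa using h2
      exact hl l

/-- The structure of a word. -/
noncomputable def XW (k : Type u) [Field k] (t : ℤ → Bool) : RS k 3 where
  V := ℤ →₀ k
  Rel :=
    { carrier := {w | ∀ i : ℤ, (t i = true → w 2 i = 0) ∧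
        w 1 (i + 1) + (if t i = true then w 0 i else w 2 i) = 0}
      zero_mem' := fun i => ⟨fun _ => rfl, by simp⟩
      add_mem' := by
        intro w w' h h' i
        obtain ⟨a1, a2⟩ := h i
        obtain ⟨b1, b2⟩ := h' i
        refine ⟨fun ht => ?_, ?_⟩
        · simp only [Pi.add_apply, Finsupp.add_apply]
          rw [a1 ht, b1 ht, add_zero]
        · simp only [Pi.add_apply, Finsupp.add_apply]
          split_ifs at a2 b2 ⊢
          · linear_combination a2 + b2
          · linear_combination a2 + b2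
      smul_mem' := by
        intro c w h i
        obtain ⟨a1, a2⟩ := h i
        refine ⟨fun ht => ?_, ?_⟩
        · simp only [Pi.smul_apply, Finsupp.smul_apply, smul_eq_mul]
          rw [a1 ht, mul_zero]
        · simp only [Pi.smul_apply, Finsupp.smul_apply, smul_eq_mul]
          split_ifs at a2 ⊢
          · linear_combination c * a2
          · linear_combination c * a2 }

/-- An element of the vector space as a function. -/
noncomputable def co {t : ℤ → Bool} (v : (XW k t).V) : ℤ →₀ k := v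

theorem co_neg {t : ℤ → Bool} (v : (XW k t).V) (i : ℤ) : co (-v) i = -co v i := rfl

theorem co_add {t : ℤ → Bool} (v w : (XW k t).V) (i : ℤ) : co (v + w) i = co v i + co w i := rfl

theorem co_zero {t : ℤ → Bool} (i : ℤ) : co (0 : (XW k t).V) i = 0 := rfl

theorem mem_XW {t : ℤ → Bool} {w : Fin 3 → (XW k t).V} : w ∈ (XW k t).Rel ↔
    ∀ i : ℤ, (t i = true → co (w 2) i = 0) ∧
      co (w 1) (i + 1) + (if t i = true then co (w 0) i else co (w 2) i) = 0 :=
  Iff.rfl

theorem single_succ (i j : ℤ) :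
    (Finsupp.single (i + 1) (1 : k) : ℤ →₀ k) (j + 1) = (Finsupp.single i (1 : k) : ℤ →₀ k) j := by
  rw [Finsupp.single_apply, Finsupp.single_apply]
  by_cases h : i = j
  · rw [if_pos h, if_pos (by rw [h])]
  · rw [if_neg h, if_neg (fun h' => h (by omega))]

end

/-- CR-STRW. -/
theorem goalStrW : GoalStrW.{u} := by
  intro k _
  refine ⟨rsW k, rxW k, ?_, ?_, ?_⟩
  · intro X _ y s h
    rw [sat_rxW] at h
    obtain ⟨s₁, s₂, y₂, -, -, h1, -⟩ := h
    rw [sat_rsW, neg_zero]
    exact h1
  · intro X _ y s h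
    rw [sat_rsW] at h
    rw [sat_rxW]
    have hz : (![0, 0, 0] : Fin 3 → X.V) ∈ X.Rel := by
      have : (![0, 0, 0] : Fin 3 → X.V) = 0 := by
        funext i
        fin_cases i <;> rfl
      rw [this]
      exact zero_mem _
    refine ⟨0, s, y, by rw [zero_add], ?_, hz, h⟩
    rw [neg_zero]
    exact hz
  · intro t
    refine ⟨XW k t, ?_, fun i => (Finsupp.single i (1 : k) : ℤ →₀ k), k, inferInstance,
      fun i => (Finsupp.applyAddHom i : (ℤ →₀ k) →+ k), ?_, ?_, ?_⟩
    · intro v hv
      rw [mem_XW] at hv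
      have h1 : co v = 0 := by
        ext j
        have h2 := (hv (j - 1)).2
        have h3 : co v (j - 1 + 1) + (if t (j - 1) = true then (0 : ℤ →₀ k) (j - 1)
            else (0 : ℤ →₀ k) (j - 1)) = 0 := h2
        simpa using h3
      exact h1
    · change (Finsupp.single (0 : ℤ) (1 : k) : ℤ →₀ k) 0 ≠ 0
      rw [Finsupp.single_eq_same]
      exact one_ne_zero
    · intro i hi
      constructor
      · rw [sat_rsW, mem_XW]
        intro j
        refine ⟨fun _ => rfl, ?_⟩
        change (-(Finsupp.single (i + 1) (1 : k) : ℤ →₀ k)) (j + 1) +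
          (if t j = true then (Finsupp.single i (1 : k) : ℤ →₀ k) j else (0 : ℤ →₀ k) j) = 0
        rw [Finsupp.neg_apply, single_succ]
        by_cases hij : i = j
        · subst hij
          rw [if_pos hi]
          ring
        · rw [Finsupp.single_apply, if_neg hij]
          simp
      · intro y s h
        rw [sat_rsW, mem_XW] at h
        have h2 := (h i).2
        have h3 : -co s (i + 1) +
          (if t i = true then co y i else (0 : ℤ →₀ k) i) = 0 := h2
        rw [if_pos hi] at h3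
        change co s (i + 1) = co y i
        linear_combination -h3
    · intro i hi
      have hne : ∀ j : ℤ, t j = true → (Finsupp.single i (1 : k) : ℤ →₀ k) j = 0 := by
        intro j hj
        rw [Finsupp.single_apply, if_neg]
        intro hij
        rw [← hij, hi] at hj
        exact Bool.false_ne_true hj
      have hif : ¬ (t i = true) := by rw [hi]; exact Bool.false_ne_true
      constructor
      · rw [sat_rxW]
        refine ⟨(Finsupp.single (i + 1) (1 : k) : ℤ →₀ k), (0 : ℤ →₀ k), (0 : ℤ →₀ k), ?_, ?_, ?_, ?_⟩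
        · exact (add_zero _).symm
        · rw [mem_XW]
          intro j
          refine ⟨hne j, ?_⟩
          change (-(Finsupp.single (i + 1) (1 : k) : ℤ →₀ k)) (j + 1) +
            (if t j = true then (0 : ℤ →₀ k) j else (Finsupp.single i (1 : k) : ℤ →₀ k) j) = 0
          rw [Finsupp.neg_apply, single_succ]
          split_ifs with h
          · rw [hne j h]
            simp
          · ring
        · rw [mem_XW]
          intro j
          refine ⟨fun _ => rfl, ?_⟩
          change (0 : ℤ →₀ k) (j + 1) +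
            (if t j = true then (Finsupp.single i (1 : k) : ℤ →₀ k) j else (0 : ℤ →₀ k) j) = 0
          split_ifs with h
          · rw [hne j h]
            simp
          · simp
        · rw [mem_XW]
          intro j
          refine ⟨fun _ => rfl, ?_⟩
          change (-(0 : ℤ →₀ k)) (j + 1) +
            (if t j = true then (0 : ℤ →₀ k) j else (0 : ℤ →₀ k) j) = 0
          simp
      · intro y s h
        rw [sat_rxW] at h
        obtain ⟨s₁, s₂, y₂, hs, h0, -, h2⟩ := h
        rw [mem_XW] at h0 h2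
        have g1 : -co s₁ (i + 1) +
          (if t i = true then (0 : ℤ →₀ k) i else co y i) = 0 := (h0 i).2
        have g2 : -co s₂ (i + 1) +
          (if t i = true then co y₂ i else (0 : ℤ →₀ k) i) = 0 := (h2 i).2
        rw [if_neg hif] at g1 g2
        have g3 : co s (i + 1) = co s₁ (i + 1) + co s₂ (i + 1) := by
          rw [hs]
          rfl
        change co s (i + 1) = co y i
        have g4 : (0 : ℤ →₀ k) i = 0 := rfl
        rw [g4] at g2
        rw [g3]
        linear_combination -g1 - g2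

end Pool.Agent.Helper8.CR
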