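import Pool.Agent.Helper88.CR.GoalsA

/-! Packet CR-P4. -/

set_option autoImplicit false

open Finset

namespace Pool.Agent.Helper8.CR

open Pool.Agent.Helper88.CR

/-- Rough integers are the integers prime to `q * primorial z`. -/
theorem rg_iff_coprime {z q n : ℕ} (hq : q ≠ 0) (hqz : q ≤ z) (hn : n ≠ 0) :
    rg z n ↔ Nat.Coprime n (q * primorial z) := by
  constructor
  · rintro ⟨_, h⟩
    refine Nat.Coprime.mul_right ?_ ?_
    · refine Nat.Coprime.symm (Nat.coprime_of_dvd fun p hp hpq hpn => ?_)
      have h1 := h p hp hpn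
      have h2 := Nat.le_of_dvd (Nat.pos_of_ne_zero hq) hpq
      omega
    · refine Nat.Coprime.symm (Nat.coprime_of_dvd fun p hp hpq hpn => ?_)
      have h1 := h p hp hpn
      have h2 : p ≤ z := hp.dvd_primorial_iff.1 hpq
      omega
  · intro h
    refine ⟨hn, fun p hp hpn => ?_⟩
    by_contra hpz
    rw [not_lt] at hpz
    have h1 : p ∣ primorial z := hp.dvd_primorial_iff.2 hpz
    have h2 : p ∣ Nat.gcd n (q * primorial z) := Nat.dvd_gcd hpn (dvd_mul_of_dvd_right h1 q)
    rw [h] at h2
    exact hp.one_lt.ne' (Nat.dvd_one.1 h2)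

theorem N_ne {z q : ℕ} [NeZero q] : NeZero (q * primorial z) :=
  ⟨mul_ne_zero (NeZero.ne q) (primorial_pos z).ne'⟩

/-- The sum over the rough integers is an `L` series. -/
theorem ll_ch {z q : ℕ} [NeZero q] (hqz : q ≤ z) (χ : DirichletCharacter ℂ q) (s : ℂ) :
    LL (ch z χ) 0 s = LSeries (fun n : ℕ => DirichletCharacter.changeLevel
      (dvd_mul_right q (primorial z)) χ (n : ZMod (q * primorial z))) s := by
  refine LSeries_congr (fun {n} hn => ?_) s
  unfold gj ch
  simp only [pow_zero, Nat.factorial_zero, Nat.cast_one, div_one, Complex.ofReal_one, mul_one]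
  by_cases hr : rg z n
  · rw [if_pos hr]
    have hc : Nat.Coprime n (q * primorial z) := (rg_iff_coprime (NeZero.ne q) hqz hn).1 hr
    have hu : IsUnit (n : ZMod (q * primorial z)) := (ZMod.isUnit_iff_coprime n _).2 hc
    have h1 := DirichletCharacter.changeLevel_eq_cast_of_dvd χ (dvd_mul_right q (primorial z))
      hu.unit
    rw [IsUnit.unit_spec, ZMod.cast_natCast (dvd_mul_right q (primorial z))] at h1
    exact h1.symm
  · rw [if_neg hr]
    have hc : ¬ Nat.Coprime n (q * primorial z) := fun h =>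
      hr ((rg_iff_coprime (NeZero.ne q) hqz hn).2 h)
    have hu : ¬ IsUnit (n : ZMod (q * primorial z)) := fun h =>
      hc ((ZMod.isUnit_iff_coprime n _).1 h)
    exact (MulChar.map_nonunit _ hu).symm

theorem ll_ci {z q : ℕ} [NeZero q] (hqz : q ≤ z) (s : ℂ) :
    LL (ci z 1 0) 0 s = LSeries (fun n : ℕ =>
      (1 : DirichletCharacter ℂ (q * primorial z)) (n : ZMod (q * primorial z))) s := by
  refine LSeries_congr (fun {n} hn => ?_) s
  unfold gj ci
  simp only [pow_zero, Nat.factorial_zero, Nat.cast_one, div_one, Complex.ofReal_one, mul_one]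
  by_cases hr : rg z n
  · rw [if_pos ⟨Nat.modEq_one, hr⟩]
    have hc : Nat.Coprime n (q * primorial z) := (rg_iff_coprime (NeZero.ne q) hqz hn).1 hr
    have hu : IsUnit (n : ZMod (q * primorial z)) := (ZMod.isUnit_iff_coprime n _).2 hc
    exact (MulChar.one_apply hu).symm
  · rw [if_neg fun h => hr h.2]
    have hc : ¬ Nat.Coprime n (q * primorial z) := fun h =>
      hr ((rg_iff_coprime (NeZero.ne q) hqz hn).2 h)
    have hu : ¬ IsUnit (n : ZMod (q * primorial z)) := fun h =>
      hc ((ZMod.isUnit_iff_coprime n _).1 h)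
    exact (MulChar.map_nonunit _ hu).symm

theorem p4 : StmtP4 := by
  intro z q _ hqz χ x y hx
  have hN : NeZero (q * primorial z) := N_ne
  have h := DirichletCharacter.norm_LSeries_product_ge_one
    (DirichletCharacter.changeLevel (dvd_mul_right q (primorial z)) χ) hx y
  rw [← map_pow] at h
  rw [ll_ci hqz, ll_ch hqz, ll_ch hqz]
  rw [norm_mul, norm_mul, norm_pow, norm_pow] at h
  exact h

end Pool.Agent.Helper8.CR
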