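import Pool.Agent.Helper8.CR.P4

/-! Packet CR-RM. -/

set_option autoImplicit false

open Finset

namespace Pool.Agent.Helper8.CR

open Pool.Agent.Helper88.CR

/-- The sums over the rough integers do not depend on the level. -/
theorem ll_changeLevel {z d q : ℕ} [NeZero q] (hdq : d ∣ q) (hqz : q ≤ z)
    (χ : DirichletCharacter ℂ d) (j : ℕ) (s : ℂ) :
    LL (ch z (DirichletCharacter.changeLevel hdq χ)) j s = LL (ch z χ) j s := by
  refine LSeries_congr (fun {n} hn => ?_) s
  unfold gj ch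
  by_cases hr : rg z n
  · rw [if_pos hr, if_pos hr]
    have hc : Nat.Coprime n q :=
      Nat.Coprime.coprime_dvd_right (dvd_mul_right q (primorial z))
        ((rg_iff_coprime (NeZero.ne q) hqz hn).1 hr)
    have hu : IsUnit (n : ZMod q) := (ZMod.isUnit_iff_coprime n _).2 hc
    have h1 := DirichletCharacter.changeLevel_eq_cast_of_dvd χ hdq hu.unit
    rw [IsUnit.unit_spec, ZMod.cast_natCast hdq] at h1
    rw [h1]
  · rw [if_neg hr, if_neg hr]

theorem rm (hLO : StmtLO) : StmtRM := by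
  obtain ⟨c, hc, hc1, z0, h⟩ := hLO
  refine ⟨c, hc, hc1, z0, fun z w hz hw hqz => ?_⟩
  have hN : NeZero (primorial w) := ⟨primorial_ne_zero w⟩
  have hq1 : 1 ≤ primorial w := primorial_pos w
  have hqz' : primorial w ≤ z := by
    refine le_trans ?_ hqz
    calc primorial w = primorial w ^ 1 := (pow_one _).symm
      _ ≤ primorial w ^ 8 := Nat.pow_le_pow_right hq1 (by norm_num)
  obtain ⟨χ₁, hχ₁⟩ := h z (primorial w) hz hqz
  have key : ∀ p : ℕ, ∀ hp : p.Prime, ∀ hpw : p ≤ w, (χ₁ = 1 ∨ p ∣ χ₁.conductor) →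
      ∀ χ : DirichletCharacter ℂ (primorial w / p), χ ≠ 1 →
      DirichletCharacter.changeLevel (Nat.div_dvd_of_dvd (hp.dvd_primorial_iff.2 hpw)) χ ≠ χ₁ := by
    intro p hp hpw hor χ hχ heq
    have hpq : p ∣ primorial w := hp.dvd_primorial_iff.2 hpw
    rcases hor with h1 | h1
    · rw [h1, DirichletCharacter.changeLevel_eq_one_iff] at heq
      exact hχ heq
    · have h2 : χ₁.conductor ∣ primorial w / p := by
        refine DirichletCharacter.conductor_dvd_of_mem_conductorSet χ₁ ?_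
        exact ⟨Nat.div_dvd_of_dvd hpq, χ, heq.symm⟩
      have h3 : p ∣ primorial w / p := h1.trans h2
      have h4 : p * p ∣ primorial w := by
        have := Nat.mul_dvd_of_dvd_div hpq h3
        exact this
      have h5 := (squarefree_primorial w) p h4
      exact hp.one_lt.ne' (Nat.isUnit_iff.1 h5)
  have fin : ∀ p : ℕ, p.Prime → p ≤ w → (χ₁ = 1 ∨ p ∣ χ₁.conductor) →
      ∀ χ : DirichletCharacter ℂ (primorial w / p), χ ≠ 1 →
      ∀ s : ℂ, 1 < s.re → s.re ≤ 1 + c / Real.log z → |s.im| ≤ (z : ℝ) ^ (1 / 32 : ℝ) →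
      c ≤ ‖LL (ch z χ) 0 s‖ := by
    intro p hp hpw hor χ hχ s hs1 hs2 hs3
    have hdq : primorial w / p ∣ primorial w :=
      Nat.div_dvd_of_dvd (hp.dvd_primorial_iff.2 hpw)
    have h1 := hχ₁ (DirichletCharacter.changeLevel hdq χ)
      (fun h => hχ ((DirichletCharacter.changeLevel_eq_one_iff hdq).1 h))
      (key p hp hpw hor χ hχ) s hs1 hs2 hs3
    rw [ll_changeLevel hdq hqz'] at h1
    exact h1
  by_cases h1 : χ₁ = 1
  · exact ⟨2, Nat.prime_two, hw, fin 2 Nat.prime_two hw (Or.inl h1)⟩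
  · have h2 : χ₁.conductor ≠ 1 := fun h => h1 ((DirichletCharacter.eq_one_iff_conductor_eq_one).2 h)
    obtain ⟨p, hp, hpc⟩ := Nat.exists_prime_and_dvd h2
    have hpw : p ≤ w := hp.dvd_primorial_iff.1 (hpc.trans (DirichletCharacter.conductor_dvd_level χ₁))
    exact ⟨p, hp, hpw, fin p hp hpw (Or.inr hpc)⟩

end Pool.Agent.Helper8.CR
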