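import Pool.Agent.Helper88.CR.GoalsA

/-! Packet CR-AL. -/

set_option autoImplicit false

open Finset

namespace Pool.Agent.Helper8.CR

open Pool.Agent.Helper88.CR

/-- Bound of the inverse power series. -/
theorem inv_bd (F : ℕ → ℂ) (K R c : ℝ) (hK : 1 ≤ K) (hR : 1 ≤ R) (hc : 0 < c)
    (hF : ∀ j, ‖F j‖ ≤ K * R ^ j) (hL : c ≤ ‖1 + F 0‖) (G : PowerSeries ℂ)
    (hG : (1 + PowerSeries.mk F) * G = 1) (i : ℕ) :
    ‖PowerSeries.coeff i G‖ ≤ 1 / c * ((1 + K / c) * R) ^ i := by
  have hL0 : (1 + F 0) ≠ 0 := by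
    intro h
    rw [h, norm_zero] at hL
    linarith
  induction i using Nat.strong_induction_on with
  | _ i ih =>
    have h1 : PowerSeries.coeff i ((1 + PowerSeries.mk F) * G) = PowerSeries.coeff i (1 : PowerSeries ℂ) := by
      rw [hG]
    rw [add_mul, one_mul, map_add, PowerSeries.coeff_mul,
      Finset.Nat.sum_antidiagonal_eq_sum_range_succ
        (fun a b => PowerSeries.coeff a (PowerSeries.mk F) * PowerSeries.coeff b G)] at h1
    simp only [PowerSeries.coeff_mk] at h1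
    rw [Finset.sum_range_succ'] at h1
    simp only [Nat.sub_zero] at h1
    rcases Nat.eq_zero_or_pos i with hi | hi
    · subst hi
      simp only [Finset.range_zero, Finset.sum_empty, zero_add] at h1
      rw [PowerSeries.coeff_zero_one] at h1
      have h2 : (1 + F 0) * PowerSeries.coeff 0 G = 1 := by linear_combination h1
      have h3 : ‖1 + F 0‖ * ‖PowerSeries.coeff 0 G‖ = 1 := by
        rw [← norm_mul, h2, norm_one]
      rw [pow_zero, mul_one, le_div_iff₀ hc]
      have h4 := mul_le_mul_of_nonneg_right hL (norm_nonneg (PowerSeries.coeff 0 G))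
      linarith
    · rw [PowerSeries.coeff_one, if_neg hi.ne'] at h1
      have h2 : (1 + F 0) * PowerSeries.coeff i G =
          - ∑ m ∈ range i, F (m + 1) * PowerSeries.coeff (i - (m + 1)) G := by
        linear_combination h1
      have h3 : ‖1 + F 0‖ * ‖PowerSeries.coeff i G‖ ≤
          ∑ m ∈ range i, (K * R ^ (m + 1)) * (1 / c * ((1 + K / c) * R) ^ (i - (m + 1))) := by
        rw [← norm_mul, h2, norm_neg]
        refine (norm_sum_le _ _).trans (Finset.sum_le_sum fun m hm => ?_)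
        rw [mem_range] at hm
        rw [norm_mul]
        exact mul_le_mul (hF _) (ih _ (by omega)) (norm_nonneg _) (by positivity)
      set A : ℝ := 1 + K / c with hA
      have hA1 : 1 < A := by
        have : 0 < K / c := by positivity
        linarith
      have h4 : ∑ m ∈ range i, (K * R ^ (m + 1)) * (1 / c * (A * R) ^ (i - (m + 1))) =
          R ^ i * (A ^ i - 1) := by
        have h5 : ∀ m ∈ range i, (K * R ^ (m + 1)) * (1 / c * (A * R) ^ (i - (m + 1))) =
            R ^ i * ((A - 1) * A ^ (i - 1 - m)) := by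
          intro m hm
          rw [mem_range] at hm
          have e1 : R ^ i = R ^ (m + 1) * R ^ (i - (m + 1)) := by
            rw [← pow_add]; congr 1; omega
          have e2 : i - (m + 1) = i - 1 - m := by omega
          rw [mul_pow, e1, hA, e2]
          ring
        rw [Finset.sum_congr rfl h5, ← Finset.mul_sum, ← Finset.mul_sum]
        congr 1
        rw [Finset.sum_range_reflect (fun j => A ^ j) i, mul_comm]
        exact geom_sum_mul A i
      rw [h4] at h3
      have h6 : c * ‖PowerSeries.coeff i G‖ ≤ R ^ i * (A ^ i - 1) :=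
        (mul_le_mul_of_nonneg_right hL (norm_nonneg _)).trans h3
      rw [mul_pow, one_div, ← div_eq_inv_mul, le_div_iff₀ hc]
      have h7 : 0 ≤ R ^ i := by positivity
      nlinarith

theorem al : StmtAL := by
  intro X S F P K R c hK hR hc hc1 hF hL hms hrel k
  set A : ℝ := 1 + K / c with hA
  have hA1 : 1 ≤ A := by
    have : 0 ≤ K / c := by positivity
    linarith
  have hmain : ∀ χ ∈ S, ‖P χ k - ((k : ℂ) + 1) * F χ (k + 1)‖ ≤
      ∑ p ∈ antidiagonal k, ∑ r ∈ antidiagonal p.2,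
        (((p.1 : ℝ) + 1) * (1 / c * (A * R) ^ r.2)) * (‖F χ (p.1 + 1)‖ * ‖F χ r.1‖) := by
    intro χ hχ
    set Fs := PowerSeries.mk (F χ) with hFs
    set Ps := PowerSeries.mk (P χ) with hPs
    set Ds : PowerSeries ℂ := PowerSeries.mk (fun j => ((j : ℂ) + 1) * F χ (j + 1)) with hDs
    have hD : Ds = Ps * (1 + Fs) := by
      ext j
      rw [mul_add, mul_one, map_add, PowerSeries.coeff_mul,
        Finset.Nat.sum_antidiagonal_eq_sum_range_succ
        (fun a b => PowerSeries.coeff a Ps * PowerSeries.coeff b Fs)]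
      simp only [hDs, hPs, hFs, PowerSeries.coeff_mk]
      exact hrel χ hχ j
    have hL0 : PowerSeries.constantCoeff (1 + Fs) ≠ 0 := by
      rw [map_add, map_one]
      have : PowerSeries.constantCoeff Fs = F χ 0 := by
        rw [← PowerSeries.coeff_zero_eq_constantCoeff_apply, hFs, PowerSeries.coeff_mk]
      rw [this]
      intro h
      have := hL χ hχ
      rw [h, norm_zero] at this
      linarith
    set G := (1 + Fs)⁻¹ with hGdef
    have hG : (1 + Fs) * G = 1 := PowerSeries.mul_inv_cancel _ hL0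
    have hP : Ps = Ds - Ds * (Fs * G) := by
      have h1 : Ds * G = Ps := by rw [hD, mul_assoc, hG, mul_one]
      have h2 : G = 1 - Fs * G := by
        rw [add_mul, one_mul] at hG
        rw [← hG]
        ring
      calc Ps = Ds * G := h1.symm
        _ = Ds * (1 - Fs * G) := by rw [← h2]
        _ = Ds - Ds * (Fs * G) := by ring
    have hk : P χ k - ((k : ℂ) + 1) * F χ (k + 1) = - PowerSeries.coeff k (Ds * (Fs * G)) := by
      have h1 := congrArg (PowerSeries.coeff k) hP
      rw [map_sub, hPs, PowerSeries.coeff_mk] at h1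
      rw [h1, hDs, PowerSeries.coeff_mk]
      ring
    rw [hk, norm_neg, PowerSeries.coeff_mul]
    refine (norm_sum_le _ _).trans (Finset.sum_le_sum fun p hp => ?_)
    rw [norm_mul, PowerSeries.coeff_mul]
    have h1 : ‖PowerSeries.coeff p.1 Ds‖ = ((p.1 : ℝ) + 1) * ‖F χ (p.1 + 1)‖ := by
      rw [hDs, PowerSeries.coeff_mk, norm_mul]
      congr 1
      have : ((p.1 : ℂ) + 1) = (((p.1 : ℝ) + 1 : ℝ) : ℂ) := by push_cast; ring
      rw [this, Complex.norm_real, Real.norm_of_nonneg (by positivity)]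
    rw [h1]
    have h2 : ‖∑ r ∈ antidiagonal p.2, PowerSeries.coeff r.1 Fs * PowerSeries.coeff r.2 G‖ ≤
        ∑ r ∈ antidiagonal p.2, ‖F χ r.1‖ * (1 / c * (A * R) ^ r.2) := by
      refine (norm_sum_le _ _).trans (Finset.sum_le_sum fun r hr => ?_)
      rw [norm_mul, hFs, PowerSeries.coeff_mk]
      exact mul_le_mul_of_nonneg_left (inv_bd (F χ) K R c hK hR hc (hF χ hχ) (hL χ hχ) G hG r.2)
        (norm_nonneg _)
    refine (mul_le_mul_of_nonneg_left h2 (by positivity)).trans (le_of_eq ?_)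
    rw [Finset.mul_sum]
    refine Finset.sum_congr rfl fun r _ => ?_
    ring
  refine (Finset.sum_le_sum hmain).trans ?_
  rw [Finset.sum_comm]
  have hsq : ∀ j, √(∑ χ ∈ S, ‖F χ j‖ ^ 2) ≤ K * R ^ j := by
    intro j
    refine Real.sqrt_le_iff.2 ⟨by positivity, (hms j).trans (le_of_eq ?_)⟩
    rw [mul_pow, ← pow_mul, mul_comm j 2]
  have hCS : ∀ a b : ℕ, ∑ χ ∈ S, ‖F χ a‖ * ‖F χ b‖ ≤ (K * R ^ a) * (K * R ^ b) := by
    intro a b
    refine (Real.sum_mul_le_sqrt_mul_sqrt S (fun χ => ‖F χ a‖) (fun χ => ‖F χ b‖)).trans ?_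
    exact mul_le_mul (hsq a) (hsq b) (Real.sqrt_nonneg _) (by positivity)
  have hterm : ∀ p ∈ antidiagonal k, ∑ χ ∈ S, ∑ r ∈ antidiagonal p.2,
      (((p.1 : ℝ) + 1) * (1 / c * (A * R) ^ r.2)) * (‖F χ (p.1 + 1)‖ * ‖F χ r.1‖) ≤
      ((k : ℝ) + 1) * (((k : ℝ) + 1) * (K ^ 2 / c) * (A * R) ^ (k + 1)) := by
    intro p hp
    rw [Finset.sum_comm]
    have hpk : p.1 + p.2 = k := mem_antidiagonal.1 hp
    have h1 : ∀ r ∈ antidiagonal p.2, ∑ χ ∈ S,
        (((p.1 : ℝ) + 1) * (1 / c * (A * R) ^ r.2)) * (‖F χ (p.1 + 1)‖ * ‖F χ r.1‖) ≤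
        ((k : ℝ) + 1) * (K ^ 2 / c) * (A * R) ^ (k + 1) := by
      intro r hr
      have hrp : r.1 + r.2 = p.2 := mem_antidiagonal.1 hr
      rw [← Finset.mul_sum]
      have h2 : (((p.1 : ℝ) + 1) * (1 / c * (A * R) ^ r.2)) *
          ∑ χ ∈ S, ‖F χ (p.1 + 1)‖ * ‖F χ r.1‖ ≤
          (((p.1 : ℝ) + 1) * (1 / c * (A * R) ^ r.2)) * ((K * R ^ (p.1 + 1)) * (K * R ^ r.1)) :=
        mul_le_mul_of_nonneg_left (hCS _ _) (by positivity)
      refine h2.trans ?_
      have h3 : (((p.1 : ℝ) + 1) * (1 / c * (A * R) ^ r.2)) *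
          ((K * R ^ (p.1 + 1)) * (K * R ^ r.1)) =
          ((p.1 : ℝ) + 1) * (K ^ 2 / c) * (A ^ r.2 * R ^ (k + 1)) := by
        have e1 : k + 1 = r.2 + (p.1 + 1) + r.1 := by omega
        rw [e1, pow_add, pow_add, mul_pow]
        ring
      rw [h3, mul_pow]
      have hp1 : (p.1 : ℝ) ≤ k := by exact_mod_cast (by omega : p.1 ≤ k)
      have h4 : A ^ r.2 ≤ A ^ (k + 1) := pow_le_pow_right₀ hA1 (by omega)
      gcongr
    refine (Finset.sum_le_sum h1).trans ?_
    rw [Finset.sum_const, Finset.Nat.card_antidiagonal, nsmul_eq_mul]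
    have hp2 : ((p.2 + 1 : ℕ) : ℝ) ≤ (k : ℝ) + 1 := by exact_mod_cast (by omega : p.2 + 1 ≤ k + 1)
    exact mul_le_mul_of_nonneg_right hp2 (by positivity)
  refine (Finset.sum_le_sum hterm).trans (le_of_eq ?_)
  rw [Finset.sum_const, Finset.Nat.card_antidiagonal, nsmul_eq_mul]
  push_cast
  ring

end Pool.Agent.Helper8.CR
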