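import Pool.Agent.Helper88.CR.GoalsA

/-! Packet CR-PF. -/

set_option autoImplicit false

open Finset

open scoped ArithmeticFunction

namespace Pool.Agent.Helper8.CR

open Pool.Agent.Helper88.CR

theorem rg_mul {z d m : ℕ} (hd : d ≠ 0) (hm : m ≠ 0) : rg z (d * m) ↔ rg z d ∧ rg z m := by
  constructor
  · rintro ⟨_, h⟩
    exact ⟨⟨hd, fun p hp h1 => h p hp (dvd_mul_of_dvd_left h1 m)⟩,
      ⟨hm, fun p hp h1 => h p hp (dvd_mul_of_dvd_right h1 d)⟩⟩
  · rintro ⟨⟨_, h1⟩, ⟨_, h2⟩⟩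
    refine ⟨mul_ne_zero hd hm, fun p hp h3 => ?_⟩
    rcases (hp.dvd_mul).1 h3 with h4 | h4
    · exact h1 p hp h4
    · exact h2 p hp h4

theorem ch_mul {z q : ℕ} (χ : DirichletCharacter ℂ q) {d m : ℕ} (hd : d ≠ 0) (hm : m ≠ 0) :
    ch z χ (d * m) = ch z χ d * ch z χ m := by
  unfold ch
  by_cases h1 : rg z d <;> by_cases h2 : rg z m
  · rw [if_pos ((rg_mul hd hm).2 ⟨h1, h2⟩), if_pos h1, if_pos h2, Nat.cast_mul, map_mul]
  · rw [if_neg fun h => h2 ((rg_mul hd hm).1 h).2, if_neg h2, mul_zero]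
  · rw [if_neg fun h => h1 ((rg_mul hd hm).1 h).1, if_neg h1, zero_mul]
  · rw [if_neg fun h => h1 ((rg_mul hd hm).1 h).1, if_neg h1, zero_mul]

theorem ch_norm {z q : ℕ} (χ : DirichletCharacter ℂ q) (n : ℕ) : ‖ch z χ n‖ ≤ 1 := by
  unfold ch
  split_ifs
  · exact χ.norm_le_one _
  · simp

theorem log_pow_le {ε : ℝ} (he : 0 < ε) (j : ℕ) {n : ℕ} (hn : n ≠ 0) :
    Real.log n ^ j / (j.factorial : ℝ) ≤ (1 / ε ^ j) * (n : ℝ) ^ ε := by
  have hn1 : (1 : ℝ) ≤ n := by exact_mod_cast Nat.one_le_iff_ne_zero.2 hn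
  have hl : 0 ≤ Real.log n := Real.log_nonneg hn1
  have h1 := Real.pow_div_factorial_le_exp (ε * Real.log n) (by positivity) j
  have h2 : (n : ℝ) ^ ε = Real.exp (ε * Real.log n) := by
    rw [Real.rpow_def_of_pos (by linarith), mul_comm]
  rw [h2]
  rw [mul_pow] at h1
  have h3 : 0 < ε ^ j := by positivity
  rw [one_div, ← div_eq_inv_mul, le_div_iff₀ h3]
  calc Real.log n ^ j / (j.factorial : ℝ) * ε ^ j = ε ^ j * Real.log n ^ j / (j.factorial : ℝ) := by
        ring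
    _ ≤ _ := h1

theorem summ_gj {z q : ℕ} (χ : DirichletCharacter ℂ q) (j : ℕ) {s : ℂ} (hs : 1 < s.re) :
    LSeriesSummable (gj (ch z χ) j) s := by
  set ε : ℝ := (s.re - 1) / 2 with he
  have he0 : 0 < ε := by rw [he]; linarith
  refine LSeriesSummable_of_le_const_mul_rpow (x := 1 + ε) (by rw [he]; linarith)
    ⟨1 / ε ^ j, fun n hn => ?_⟩
  have hn1 : (1 : ℝ) ≤ n := by exact_mod_cast Nat.one_le_iff_ne_zero.2 hn
  have hl : 0 ≤ Real.log n := Real.log_nonneg hn1
  unfold gj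
  rw [norm_mul, Complex.norm_real, Real.norm_of_nonneg (by positivity), add_sub_cancel_left]
  calc ‖ch z χ n‖ * (Real.log n ^ j / (j.factorial : ℝ))
      ≤ 1 * (Real.log n ^ j / (j.factorial : ℝ)) :=
        mul_le_mul_of_nonneg_right (ch_norm χ n) (by positivity)
    _ = Real.log n ^ j / (j.factorial : ℝ) := one_mul _
    _ ≤ _ := log_pow_le he0 j hn

theorem summ_pl {z q : ℕ} (χ : DirichletCharacter ℂ q) (j : ℕ) {s : ℂ} (hs : 1 < s.re) :
    LSeriesSummable (fun n => ((ArithmeticFunction.vonMangoldt n : ℝ) : ℂ) * gj (ch z χ) j n) s := by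
  set ε : ℝ := (s.re - 1) / 2 with he
  have he0 : 0 < ε := by rw [he]; linarith
  refine LSeriesSummable_of_le_const_mul_rpow (x := 1 + ε) (by rw [he]; linarith)
    ⟨((j : ℝ) + 1) * (1 / ε ^ (j + 1)), fun n hn => ?_⟩
  have hn1 : (1 : ℝ) ≤ n := by exact_mod_cast Nat.one_le_iff_ne_zero.2 hn
  have hl : 0 ≤ Real.log n := Real.log_nonneg hn1
  have hΛ : ArithmeticFunction.vonMangoldt n ≤ Real.log n := ArithmeticFunction.vonMangoldt_le_log
  have hΛ0 : 0 ≤ ArithmeticFunction.vonMangoldt n := ArithmeticFunction.vonMangoldt_nonneg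
  unfold gj
  rw [norm_mul, norm_mul, Complex.norm_real, Complex.norm_real,
    Real.norm_of_nonneg hΛ0,
    Real.norm_of_nonneg (show 0 ≤ Real.log n ^ j / (j.factorial : ℝ) by positivity),
    add_sub_cancel_left]
  have h1 : ‖ch z χ n‖ * (Real.log n ^ j / (j.factorial : ℝ)) ≤
      Real.log n ^ j / (j.factorial : ℝ) := by
    calc ‖ch z χ n‖ * (Real.log n ^ j / (j.factorial : ℝ))
        ≤ 1 * (Real.log n ^ j / (j.factorial : ℝ)) :=
          mul_le_mul_of_nonneg_right (ch_norm χ n) (by positivity)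
      _ = _ := one_mul _
  have h2 := log_pow_le he0 (j + 1) hn
  have h3 : Real.log n * (Real.log n ^ j / (j.factorial : ℝ)) =
      ((j : ℝ) + 1) * (Real.log n ^ (j + 1) / ((j + 1).factorial : ℝ)) := by
    rw [Nat.factorial_succ]
    push_cast
    have : (j : ℝ) + 1 ≠ 0 := by positivity
    field_simp
    ring
  calc ArithmeticFunction.vonMangoldt n * (‖ch z χ n‖ * (Real.log n ^ j / (j.factorial : ℝ)))
      ≤ Real.log n * (Real.log n ^ j / (j.factorial : ℝ)) :=
        mul_le_mul hΛ h1 (by positivity) hl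
    _ = ((j : ℝ) + 1) * (Real.log n ^ (j + 1) / ((j + 1).factorial : ℝ)) := h3
    _ ≤ ((j : ℝ) + 1) * (1 / ε ^ (j + 1) * (n : ℝ) ^ ε) :=
        mul_le_mul_of_nonneg_left h2 (by positivity)
    _ = _ := by ring

/-- The binomial theorem with divided powers. -/
theorem binom_div (x y : ℝ) (j : ℕ) :
    ∑ i ∈ range (j + 1), (x ^ i / (i.factorial : ℝ)) * (y ^ (j - i) / ((j - i).factorial : ℝ)) =
      (x + y) ^ j / (j.factorial : ℝ) := by
  rw [add_pow, Finset.sum_div]
  refine Finset.sum_congr rfl fun i hi => ?_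
  rw [mem_range] at hi
  have hij : i ≤ j := by omega
  have h1 : (j.choose i : ℝ) = (j.factorial : ℝ) / ((i.factorial : ℝ) * ((j - i).factorial : ℝ)) := by
    rw [Nat.cast_choose ℝ hij]
  rw [h1]
  have h2 : (j.factorial : ℝ) ≠ 0 := by exact_mod_cast j.factorial_ne_zero
  have h3 : (i.factorial : ℝ) ≠ 0 := by exact_mod_cast i.factorial_ne_zero
  have h4 : ((j - i).factorial : ℝ) ≠ 0 := by exact_mod_cast (j - i).factorial_ne_zero
  field_simp

theorem pf : StmtPF := by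
  intro z q _ χ s j hs
  have hconv : ∀ i ∈ range (j + 1), PL (ch z χ) i s * LL (ch z χ) (j - i) s =
      LSeries (LSeries.convolution
        (fun n => ((ArithmeticFunction.vonMangoldt n : ℝ) : ℂ) * gj (ch z χ) i n)
        (gj (ch z χ) (j - i))) s := by
    intro i _
    exact (LSeries_convolution' (summ_pl χ i hs) (summ_gj χ (j - i) hs)).symm
  rw [Finset.sum_congr rfl hconv, ← LSeries_sum (fun i _ =>
    (summ_pl χ i hs).convolution (summ_gj χ (j - i) hs))]
  unfold LL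
  rw [← LSeries_smul]
  refine LSeries_congr (fun {n} hn => ?_) s
  rw [Pi.smul_apply, smul_eq_mul, Finset.sum_apply]
  simp only [LSeries.convolution_def]
  rw [Finset.sum_comm]
  have hterm : ∀ p ∈ n.divisorsAntidiagonal, ∑ i ∈ range (j + 1),
      ((ArithmeticFunction.vonMangoldt p.1 : ℝ) : ℂ) * gj (ch z χ) i p.1 * gj (ch z χ) (j - i) p.2 =
      ch z χ n * (((ArithmeticFunction.vonMangoldt p.1 * (Real.log n ^ j / (j.factorial : ℝ)) : ℝ)) : ℂ) := by
    intro p hp
    obtain ⟨hpn, _⟩ := Nat.mem_divisorsAntidiagonal.1 hp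
    have hp1 : p.1 ≠ 0 := fun h => hn (by rw [← hpn, h, zero_mul])
    have hp2 : p.2 ≠ 0 := fun h => hn (by rw [← hpn, h, mul_zero])
    have hlog : Real.log n = Real.log p.1 + Real.log p.2 := by
      rw [← hpn, Nat.cast_mul, Real.log_mul (by exact_mod_cast hp1) (by exact_mod_cast hp2)]
    rw [hlog, ← binom_div, ← hpn, ch_mul χ hp1 hp2]
    unfold gj
    rw [Finset.mul_sum]
    push_cast
    rw [Finset.mul_sum]
    refine Finset.sum_congr rfl fun i _ => ?_
    ring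
  rw [Finset.sum_congr rfl hterm, ← Finset.mul_sum, ← Complex.ofReal_sum, ← Finset.sum_mul]
  have hsum : ∑ p ∈ n.divisorsAntidiagonal, ArithmeticFunction.vonMangoldt p.1 = Real.log n := by
    rw [Nat.sum_divisorsAntidiagonal (fun d _ => ArithmeticFunction.vonMangoldt d)]
    exact ArithmeticFunction.vonMangoldt_sum
  rw [hsum]
  unfold gj
  rw [Nat.factorial_succ]
  have h1 : ((j : ℂ) + 1) ≠ 0 := by exact_mod_cast Nat.succ_ne_zero j
  have h2 : (j.factorial : ℂ) ≠ 0 := by exact_mod_cast j.factorial_ne_zero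
  push_cast
  field_simp
  ring

end Pool.Agent.Helper8.CR
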