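import Pool.Agent.Helper48.CR.Goals

/-!
# MP_69be96_nt, packet FB3
-/

set_option autoImplicit false

namespace Pool.Agent.Helper8.CR

open Finset
open Pool.Agent.Helper48.CR

theorem fb1_nonneg (h1 : FB1G) {f : ℕ → ℝ} {S : Finset ℕ} {J : ℕ}
    (hf : ∀ p ∈ S, 0 ≤ f p ∧ J * f p ≤ 1) {j : ℕ} (hj : j ≤ J) : 0 ≤ FS f S j := by
  have h := (h1 (S.toList.map f) J (by
    intro x hx
    rw [List.mem_map] at hx
    obtain ⟨p, hp, rfl⟩ := hx
    exact hf p (Finset.mem_toList.1 hp))).1 j hj
  exact h.1

theorem fb1_anti (h1 : FB1G) {f : ℕ → ℝ} {S : Finset ℕ} {J : ℕ}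
    (hf : ∀ p ∈ S, 0 ≤ f p ∧ J * f p ≤ 1) {j : ℕ} (hj : j + 1 ≤ J) :
    FS f S (j + 1) ≤ FS f S j :=
  (h1 (S.toList.map f) J (by
    intro x hx
    rw [List.mem_map] at hx
    obtain ⟨p, hp, rfl⟩ := hx
    exact hf p (Finset.mem_toList.1 hp))).2.1 j hj

theorem fb3 (h1 : FB1G) (h2 : FB2G) : FB3G := by
  obtain ⟨-, h2e, h2i⟩ := h2
  refine ⟨?_, ?_⟩
  · intro S f g t J ht
    have ht0 : 0 < t := lt_of_lt_of_le one_pos ht
    induction S using Finset.induction_on with
    | empty =>
      intro _ j _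
      rw [h2e, h2e]
      by_cases h0 : j = 0
      · simp [h0]
      · simp [h0]
    | insert p S hp ih =>
      intro hS j hj
      have hS' : ∀ q ∈ S, 0 ≤ g q ∧ 0 ≤ f q ∧ g q ≤ t * f q ∧ J * (t * f q) ≤ 1 :=
        fun q hq => hS q (Finset.mem_insert_of_mem hq)
      have ih' := ih hS'
      obtain ⟨hg0, hf0, hgf, hJp⟩ := hS p (Finset.mem_insert_self p S)
      have hgS : ∀ q ∈ S, 0 ≤ g q ∧ J * g q ≤ 1 := fun q hq => by
        obtain ⟨a1, a2, a3, a4⟩ := hS' q hq
        exact ⟨a1, (mul_le_mul_of_nonneg_left a3 (Nat.cast_nonneg J)).trans a4⟩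
      have hfS : ∀ q ∈ S, 0 ≤ f q ∧ J * f q ≤ 1 := fun q hq => by
        obtain ⟨a1, a2, a3, a4⟩ := hS' q hq
        refine ⟨a2, le_trans ?_ a4⟩
        apply mul_le_mul_of_nonneg_left _ (Nat.cast_nonneg J)
        nlinarith
      rw [h2i g S p j hp, h2i f S p j hp]
      rcases Nat.eq_zero_or_pos j with h0 | h0
      · subst h0
        have := ih' 0 (Nat.zero_le _)
        simpa using this
      · obtain ⟨i, rfl⟩ : ∃ i, j = i + 1 := ⟨j - 1, by omega⟩
        rw [Nat.add_sub_cancel]
        have hG := fb1_anti h1 hgS hj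
        have hFj := fb1_nonneg h1 hfS hj
        have i1 := ih' (i + 1) hj
        have i2 := ih' i (by omega)
        set a : ℝ := ((i + 1 : ℕ) : ℝ) with ha
        have ha0 : 0 ≤ a := Nat.cast_nonneg _
        have haJ : a ≤ J := by rw [ha]; exact Nat.cast_le.2 hj
        have htf0 : 0 ≤ t * f p := mul_nonneg ht0.le hf0
        have hatf : a * (t * f p) ≤ 1 := (mul_le_mul_of_nonneg_right haJ htf0).trans hJp
        have s1 : (1 - a * g p) * FS g S (i + 1) + a * g p * FS g S i ≤
            (1 - a * (t * f p)) * FS g S (i + 1) + a * (t * f p) * FS g S i := by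
          have : a * g p * (FS g S i - FS g S (i + 1)) ≤
              a * (t * f p) * (FS g S i - FS g S (i + 1)) := by
            apply mul_le_mul_of_nonneg_right _ (by linarith)
            exact mul_le_mul_of_nonneg_left hgf ha0
          linarith
        have s2 : (1 - a * (t * f p)) * FS g S (i + 1) ≤
            (1 - a * (t * f p)) * (t ^ (i + 1) * FS f S (i + 1)) :=
          mul_le_mul_of_nonneg_left i1 (by linarith)
        have s3 : a * (t * f p) * FS g S i ≤ a * (t * f p) * (t ^ i * FS f S i) :=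
          mul_le_mul_of_nonneg_left i2 (mul_nonneg ha0 htf0)
        have s4 : (1 - a * (t * f p)) * (t ^ (i + 1) * FS f S (i + 1)) ≤
            (1 - a * f p) * (t ^ (i + 1) * FS f S (i + 1)) := by
          apply mul_le_mul_of_nonneg_right _ (mul_nonneg (pow_nonneg ht0.le _) hFj)
          have : f p ≤ t * f p := by nlinarith
          have := mul_le_mul_of_nonneg_left this ha0
          linarith
        calc (1 - a * g p) * FS g S (i + 1) + a * g p * FS g S i
            ≤ (1 - a * f p) * (t ^ (i + 1) * FS f S (i + 1)) +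
              a * (t * f p) * (t ^ i * FS f S i) := by linarith
          _ = t ^ (i + 1) * ((1 - a * f p) * FS f S (i + 1) + a * f p * FS f S i) := by ring
  · intro S S' f J hsub hS j hj
    have key : ∀ T : Finset ℕ, (∀ p ∈ S' ∪ T, 0 ≤ f p ∧ J * f p ≤ 1) →
        FS f S' j ≤ FS f (S' ∪ T) j := by
      intro T
      induction T using Finset.induction_on with
      | empty => intro _; rw [Finset.union_empty]
      | insert p T hp ih =>
        intro hT
        rw [Finset.union_insert] at hT ⊢
        have hT' : ∀ q ∈ S' ∪ T, 0 ≤ f q ∧ J * f q ≤ 1 :=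
          fun q hq => hT q (Finset.mem_insert_of_mem hq)
        have ih' := ih hT'
        by_cases hpm : p ∈ S' ∪ T
        · rw [Finset.insert_eq_of_mem hpm]
          exact ih'
        · rw [h2i f (S' ∪ T) p j hpm]
          refine ih'.trans ?_
          obtain ⟨hf0, -⟩ := hT p (Finset.mem_insert_self _ _)
          rcases Nat.eq_zero_or_pos j with h0 | h0
          · subst h0; simp
          · obtain ⟨i, rfl⟩ : ∃ i, j = i + 1 := ⟨j - 1, by omega⟩
            rw [Nat.add_sub_cancel]
            have hG := fb1_anti h1 hT' hj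
            have : 0 ≤ ((i + 1 : ℕ) : ℝ) * f p * (FS f (S' ∪ T) i - FS f (S' ∪ T) (i + 1)) :=
              mul_nonneg (mul_nonneg (Nat.cast_nonneg _) hf0) (by linarith)
            linarith
    have h3 := key S (by rw [Finset.union_eq_right.2 hsub]; exact hS)
    rwa [Finset.union_eq_right.2 hsub] at h3

end Pool.Agent.Helper8.CR
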