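import Pool.Agent.Helper10.CR.Goals1

/-!
# Project CR (MP_ca5fc5_al), packet CR-BOXES: a scheme from two lexicographic chains
-/

set_option autoImplicit false

universe u

namespace Pool.Agent.Helper8.CR

open Pool.Agent.Helper10.Width Pool.Agent.Helper72.Width Pool.Agent.Helper78.SD
open Pool.Agent.Helper10.CR

theorem modK {L : Type u} [Lattice L] [IsModularLattice L] {g G d D : L} (hg : g ≤ G)
    (hd : d ≤ D) : (g ⊔ d) ⊓ (G ⊓ D) ≤ (g ⊓ D) ⊔ (G ⊓ d) := by
  have h1 : (d ⊔ g) ⊓ D = d ⊔ g ⊓ D := sup_inf_assoc_of_le g hd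
  have h2 : (g ⊓ D ⊔ d) ⊓ G = g ⊓ D ⊔ d ⊓ G := sup_inf_assoc_of_le d (inf_le_left.trans hg)
  calc (g ⊔ d) ⊓ (G ⊓ D) = ((d ⊔ g) ⊓ D) ⊓ G := by
        rw [inf_comm G D, ← inf_assoc, sup_comm g d]
    _ = (g ⊓ D ⊔ d) ⊓ G := by rw [h1, sup_comm]
    _ = g ⊓ D ⊔ d ⊓ G := h2
    _ ≤ (g ⊓ D) ⊔ (G ⊓ d) := by rw [inf_comm d G]

section
variable {L : Type u} [Lattice L]

/-- The lower elements. -/
def psi (γ : List Bool → L) : List Bool → L
  | [] => γ []
  | i :: w => psi γ w ⊔ γ (i :: w)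

/-- The upper elements. -/
def phi (β γ : List Bool → L) : List Bool → L
  | [] => β []
  | i :: w => psi γ w ⊔ β (i :: w)

theorem gam_le_psi (γ : List Bool → L) (w : List Bool) : γ w ≤ psi γ w := by
  cases w with
  | nil => exact le_rfl
  | cons i w => exact le_sup_right

theorem bet_le_phi (β γ : List Bool → L) (w : List Bool) : β w ≤ phi β γ w := by
  cases w with
  | nil => exact le_rfl
  | cons i w => exact le_sup_right

theorem psi_le_phi {β γ : List Bool → L} (h : ∀ w, γ w ≤ β w) (w : List Bool) :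
    psi γ w ≤ phi β γ w := by
  cases w with
  | nil => exact h []
  | cons i w => exact sup_le_sup_left (h _) _

end

/-- CR-BOXES. -/
theorem goalBoxes : GoalBoxes.{u} := by
  intro L _ _ G0 G1 D0 D1 hG hD h1 h2 h3 h4 h5 h6 h7
  set β : List Bool → L := fun w => G1 w ⊓ D1 w with hβ
  set γ : List Bool → L := fun w => (G0 w ⊓ D1 w) ⊔ (G1 w ⊓ D0 w) with hγ
  have hγβ : ∀ w, γ w ≤ β w := fun w =>
    sup_le (inf_le_inf_right _ (hG w)) (inf_le_inf_left _ (hD w))
  have g0 : ∀ i w, G0 w ≤ G0 (i :: w) := by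
    intro i w
    cases i
    · exact h1 w
    · exact (h1 w).trans ((hG _).trans (h2 w))
  have d0 : ∀ i w, D0 w ≤ D0 (i :: w) := by
    intro i w
    cases i
    · exact (h4 w).trans ((hD _).trans (h5 w))
    · exact h4 w
  have g1 : ∀ i w, G1 (i :: w) ≤ G1 w := by
    intro i w
    cases i
    · exact (h2 w).trans ((hG _).trans (h3 w))
    · exact h3 w
  have d1 : ∀ i w, D1 (i :: w) ≤ D1 w := by
    intro i w
    cases i
    · exact h6 w
    · exact (h5 w).trans ((hD _).trans (h6 w))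
  have hβm : ∀ i w, β (i :: w) ≤ β w := fun i w => inf_le_inf (g1 i w) (d1 i w)
  have hγs : ∀ w, γ w ≤ G0 w ⊔ D0 w := fun w =>
    sup_le_sup inf_le_left inf_le_right
  -- the invariant
  have hinv : ∀ w, psi γ w ⊓ β w ≤ γ w := by
    intro w
    induction w with
    | nil => exact inf_le_left
    | cons i w ih =>
      have e1 : (γ (i :: w) ⊔ psi γ w) ⊓ β (i :: w) = γ (i :: w) ⊔ psi γ w ⊓ β (i :: w) :=
        sup_inf_assoc_of_le _ (hγβ _)
      have e2 : psi γ w ⊓ β (i :: w) ≤ γ (i :: w) := by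
        have e3 : psi γ w ⊓ β (i :: w) ≤ (G0 w ⊔ D0 w) ⊓ β (i :: w) :=
          le_inf ((inf_le_inf_left _ (hβm i w)).trans (ih.trans (hγs w))) inf_le_right
        have e4 : (G0 w ⊔ D0 w) ⊓ β (i :: w) ≤
            (G0 w ⊓ D1 (i :: w)) ⊔ (G1 (i :: w) ⊓ D0 w) :=
          modK ((g0 i w).trans (hG _)) ((d0 i w).trans (hD _))
        exact e3.trans (e4.trans (sup_le_sup (inf_le_inf_right _ (g0 i w))
          (inf_le_inf_left _ (d0 i w))))
      calc psi γ (i :: w) ⊓ β (i :: w) = (γ (i :: w) ⊔ psi γ w) ⊓ β (i :: w) := by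
            rw [sup_comm]; rfl
        _ = γ (i :: w) ⊔ psi γ w ⊓ β (i :: w) := e1
        _ ≤ γ (i :: w) := sup_le le_rfl e2
  refine ⟨phi β γ, psi γ, ?_, ?_, ?_, ?_⟩
  · intro w
    refine lt_of_le_not_ge (psi_le_phi hγβ w) fun hle => h7 w ?_
    have e1 : β w ≤ psi γ w := (bet_le_phi β γ w).trans hle
    exact (le_inf e1 le_rfl).trans (hinv w)
  · intro i w
    exact sup_le (psi_le_phi hγβ w) ((hβm i w).trans (bet_le_phi β γ w))
  · intro i w
    exact le_sup_left
  · intro i w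
    have e1 : (psi γ w ⊔ β (true :: w)) ⊓ (psi γ w ⊔ β (false :: w)) =
        psi γ w ⊔ β (true :: w) ⊓ (psi γ w ⊔ β (false :: w)) :=
      sup_inf_assoc_of_le _ le_sup_left
    have e2 : (β (false :: w) ⊔ psi γ w) ⊓ β w = β (false :: w) ⊔ psi γ w ⊓ β w :=
      sup_inf_assoc_of_le _ (hβm false w)
    have e3 : β (true :: w) ⊓ (psi γ w ⊔ β (false :: w)) ≤
        (G1 (false :: w) ⊔ D0 w) ⊓ β (true :: w) := by
      refine le_inf ?_ inf_le_left
      have e4 : β (true :: w) ⊓ (psi γ w ⊔ β (false :: w)) ≤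
          (β (false :: w) ⊔ psi γ w) ⊓ β w :=
        le_inf (inf_le_right.trans (le_of_eq (sup_comm _ _)))
          (inf_le_left.trans (hβm true w))
      rw [e2] at e4
      refine e4.trans (sup_le (inf_le_left.trans le_sup_left) ?_)
      refine (hinv w).trans ((hγs w).trans (sup_le_sup_right ?_ _))
      exact (h1 w).trans (hG _)
    have e5 : (G1 (false :: w) ⊔ D0 w) ⊓ β (true :: w) ≤
        (G1 (false :: w) ⊓ D1 (true :: w)) ⊔ (G1 (true :: w) ⊓ D0 w) :=
      modK ((h2 w).trans (hG _)) ((h4 w).trans (hD _))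
    have e6 : G1 (false :: w) ⊓ D1 (true :: w) ≤ γ (i :: w) := by
      cases i
      · exact le_trans (inf_le_inf_left _ (h5 w)) le_sup_right
      · exact le_trans (inf_le_inf_right _ (h2 w)) le_sup_left
    have e7 : G1 (true :: w) ⊓ D0 w ≤ psi γ w :=
      le_trans (le_trans (inf_le_inf_right _ (h3 w)) le_sup_right) (gam_le_psi γ w)
    calc phi β γ (false :: w) ⊓ phi β γ (true :: w)
        = (psi γ w ⊔ β (true :: w)) ⊓ (psi γ w ⊔ β (false :: w)) := inf_comm _ _
      _ = psi γ w ⊔ β (true :: w) ⊓ (psi γ w ⊔ β (false :: w)) := e1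
      _ ≤ psi γ w ⊔ γ (i :: w) := by
          refine sup_le le_sup_left (e3.trans (e5.trans (sup_le ?_ ?_)))
          · exact e6.trans le_sup_right
          · exact e7.trans le_sup_left

end Pool.Agent.Helper8.CR
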